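import Pool.Agent.W46.HM.Stm2

/-!
HM-TUBEQ: from slopes to tubes.
-/

set_option autoImplicit false

open Finset MeasureTheory
open scoped Classical ENNReal

namespace Pool.Agent.W605.HM

open Pool.Agent.W46.KK Pool.Agent.W46.HM

/-- a point of a tube in slope coordinates -/
lemma tube_coord {d : ℕ} {δ : ℝ} (hδ1 : δ ≤ 1) (m : Fin (d + 1))
    (a e : EuclideanSpace ℝ (Fin (d + 1))) (he : ‖e‖ = 1) (hem : e m ≠ 0)
    (hmax : ∀ k, |e k| ≤ |e m|) (t : ℝ) (y : Fin d → ℝ)
    (h : (eqvj d m).symm (t, y) ∈ tube δ a e) :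
    |t - a m| ≤ 3 / 2 ∧ ∀ k, |y k - (a (m.succAbove k) - a m * (e (m.succAbove k) / e m) +
      t * (e (m.succAbove k) / e m))| ≤ 2 * δ := by
  rw [eqvj_symm] at h
  set Y : EuclideanSpace ℝ (Fin (d + 1)) := WithLp.toLp 2 (m.insertNth (α := fun _ => ℝ) t y)
    with hY
  obtain ⟨h1, h2⟩ := h
  set s : ℝ := inner ℝ (Y - a) e with hs
  set u : EuclideanSpace ℝ (Fin (d + 1)) := (Y - a) - s • e with hu
  have hYm : Y m = t := by
    rw [hY, PiLp.toLp_apply, Fin.insertNth_apply_same]
  have hYk : ∀ k, Y (m.succAbove k) = y k := by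
    intro k
    rw [hY, PiLp.toLp_apply, Fin.insertNth_apply_succAbove]
  have huc : ∀ j, |u j| ≤ δ := by
    intro j
    have := PiLp.norm_apply_le u j
    rw [Real.norm_eq_abs] at this
    exact this.trans h2
  have hc : ∀ j, Y j - a j = s * e j + u j := by
    intro j
    rw [hu]
    simp only [PiLp.sub_apply, PiLp.smul_apply, smul_eq_mul]
    ring
  have hem1 : |e m| ≤ 1 := by
    have := PiLp.norm_apply_le e m
    rw [he, Real.norm_eq_abs] at this
    exact this
  constructor
  · rw [← hYm, hc m]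
    refine (abs_add_le _ _).trans ?_
    rw [abs_mul]
    have h3 := huc m
    have h4 : |s| * |e m| ≤ 1 / 2 * 1 :=
      mul_le_mul h1 hem1 (abs_nonneg _) (by norm_num)
    linarith
  · intro k
    have h3 := hc m
    have h4 := hc (m.succAbove k)
    rw [hYm] at h3
    rw [hYk] at h4
    have hv : |e (m.succAbove k) / e m| ≤ 1 := by
      rw [abs_div, div_le_one (abs_pos.2 hem)]
      exact hmax _
    have h5 : y k - (a (m.succAbove k) - a m * (e (m.succAbove k) / e m) +
        t * (e (m.succAbove k) / e m)) =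
        u (m.succAbove k) - u m * (e (m.succAbove k) / e m) := by
      have h6 : y k - (a (m.succAbove k) - a m * (e (m.succAbove k) / e m) +
        t * (e (m.succAbove k) / e m)) = (y k - a (m.succAbove k)) -
          (t - a m) * (e (m.succAbove k) / e m) := by ring
      rw [h6, h3, h4]
      field_simp
      ring
    rw [h5]
    refine (abs_sub _ _).trans ?_
    rw [abs_mul]
    have h6 := huc (m.succAbove k)
    have h7 : |u m| * |e (m.succAbove k) / e m| ≤ δ * 1 :=
      mul_le_mul (huc m) hv (abs_nonneg _) ((abs_nonneg _).trans (huc m))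
    linarith

/-- different slopes have different cells -/
lemma floor_ne {x x' : ℝ} (h : 1 ≤ |x - x'|) : ⌊x⌋ ≠ ⌊x'⌋ := by
  intro hf
  have h1 := Int.floor_le x
  have h2 := Int.lt_floor_add_one x
  have h3 := Int.floor_le x'
  have h4 := Int.lt_floor_add_one x'
  rw [hf] at h1 h2
  have : |x - x'| < 1 := by
    rw [abs_lt]
    constructor <;> linarith
  linarith

/-- one class of directions -/
lemma one_class (q : ℝ) (h : S_ALLW q) (d : ℕ) (hd : 25 ≤ d)
    (hq : 1 + (16752 / 10000) / (d : ℝ) ≤ q) :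
    ∃ C : ℝ, 0 ≤ C ∧ ∀ δ : ℝ, 0 < δ → δ ≤ 1 → ∀ (ι : Type) [Fintype ι]
    (a e : ι → EuclideanSpace ℝ (Fin (d + 1))) (m : Fin (d + 1)), (∀ i, ‖e i‖ = 1) →
    (∀ i k, |e i k| ≤ |e i m|) → (∀ i j, 0 < e i m * e j m) →
    (∀ i j, i ≠ j → δ ≤ ‖e i - e j‖) →
    ∫⁻ x, (∑ i, (tube δ (a i) (e i)).indicator (fun _ => (1 : ℝ≥0∞)) x) ^ q ≤
      ENNReal.ofReal (C * δ ^ (d : ℝ) * (Fintype.card ι : ℝ) ^ (q - 1 / (d : ℝ))) := by
  have hd1 : (0 : ℝ) < (d : ℝ) + 1 := by positivity
  have hd0 : (0 : ℝ) < (d : ℝ) := by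
    have : 0 < d := by omega
    exact_mod_cast this
  have hq0 : 0 ≤ q := by
    have : 0 ≤ (16752 / 10000) / (d : ℝ) := by positivity
    linarith
  obtain ⟨C, hC, hmain⟩ := h d hd hq (8 * (d + 1) + 2) (by positivity)
  refine ⟨C, hC, ?_⟩
  intro δ hδ hδ1 ι _ a e m he hmax hsgn hsep
  have hem : ∀ i, e i m ≠ 0 := by
    intro i h0
    have := hsgn i i
    rw [h0, mul_zero] at this
    exact lt_irrefl _ this
  set N : ℕ := ⌈4 * (d + 1) / δ⌉₊ with hN
  have hNlow : 4 * (d + 1) / δ ≤ N := Nat.le_ceil _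
  have hNup : (N : ℝ) < 4 * (d + 1) / δ + 1 := Nat.ceil_lt_add_one (by positivity)
  have hNpos : (0 : ℝ) < N := lt_of_lt_of_le (by positivity) hNlow
  have hN1 : 1 ≤ N := by exact_mod_cast hNpos
  have hNr : (N : ℝ) * (2 * δ) ≤ 8 * (d + 1) + 2 := by
    have h1 : (N : ℝ) * (2 * δ) ≤ (4 * (d + 1) / δ + 1) * (2 * δ) :=
      mul_le_mul_of_nonneg_right hNup.le (by positivity)
    have h2 : (4 * ((d : ℝ) + 1) / δ + 1) * (2 * δ) = 8 * (d + 1) + 2 * δ := by
      field_simp
      ring
    rw [h2] at h1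
    linarith
  have h1 := hmain N ι (fun i k => a i (m.succAbove k) - a i m * (e i (m.succAbove k) / e i m))
    (fun i k => e i (m.succAbove k) / e i m) (fun i => a i m) (2 * δ) hN1 (by positivity) hNr
    (by
      intro i k
      rw [abs_div, div_le_one (abs_pos.2 (hem i))]
      exact hmax i _)
    (by
      intro i j hij
      by_contra hne
      obtain ⟨k, hk⟩ := slope_sep hδ m (e i) (e j) (he i) (he j) (hsgn i j) (hsep i j hne)
      refine floor_ne ?_ (hij k)
      have h2 : (N : ℝ) * ((e i (m.succAbove k) / e i m + 1) / 2) -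
          N * ((e j (m.succAbove k) / e j m + 1) / 2) =
          N / 2 * (e i (m.succAbove k) / e i m - e j (m.succAbove k) / e j m) := by ring
      rw [h2, abs_mul, abs_of_pos (by positivity : (0 : ℝ) < N / 2)]
      calc (1 : ℝ) = (4 * (d + 1) / δ) / 2 * (δ / (2 * (d + 1))) := by
            field_simp
            norm_num
        _ ≤ N / 2 * |e i (m.succAbove k) / e i m - e j (m.succAbove k) / e j m| := by
            refine mul_le_mul ?_ hk (by positivity) (by positivity)
            exact div_le_div_of_nonneg_right hNlow (by norm_num))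
  have h2 : ∫⁻ x, (∑ i, (tube δ (a i) (e i)).indicator (fun _ => (1 : ℝ≥0∞)) x) ^ q =
      ∫⁻ z, (∑ i, (tube δ (a i) (e i)).indicator (fun _ => (1 : ℝ≥0∞))
        ((eqvj d m).symm z)) ^ q :=
    (((eqvj_mp d m).symm (eqvj d m)).lintegral_comp_emb
      (eqvj d m).symm.measurableEmbedding
      (fun x => (∑ i, (tube δ (a i) (e i)).indicator (fun _ => (1 : ℝ≥0∞)) x) ^ q)).symm
  rw [h2]
  refine (lintegral_mono fun z => ?_).trans (h1.trans ?_)
  · refine ENNReal.rpow_le_rpow (Finset.sum_le_sum fun i _ => ?_) hq0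
    obtain ⟨t, y⟩ := z
    by_cases hz : (eqvj d m).symm (t, y) ∈ tube δ (a i) (e i)
    · have h3 := tube_coord hδ1 m (a i) (e i) (he i) (hem i) (hmax i) t y hz
      rw [Set.indicator_of_mem hz, if_pos h3]
    · rw [Set.indicator_of_notMem hz]
      exact zero_le
  · apply ENNReal.ofReal_le_ofReal
    have h3 : (N : ℝ) ^ (-(d : ℝ)) ≤ δ ^ (d : ℝ) := by
      have h4 : (δ⁻¹ : ℝ) ≤ N := by
        refine le_trans ?_ hNlow
        rw [inv_eq_one_div]
        refine div_le_div_of_nonneg_right ?_ hδ.le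
        linarith
      calc (N : ℝ) ^ (-(d : ℝ)) ≤ (δ⁻¹) ^ (-(d : ℝ)) :=
            Real.rpow_le_rpow_of_nonpos (by positivity) h4 (by linarith)
        _ = δ ^ (d : ℝ) := by
            rw [Real.inv_rpow hδ.le, Real.rpow_neg hδ.le, inv_inv]
    exact mul_le_mul_of_nonneg_right (mul_le_mul_of_nonneg_left h3 hC)
      (Real.rpow_nonneg (Nat.cast_nonneg _) _)

/-- HM-TUBEQ -/
theorem TUBEQ (q : ℝ) (h : S_ALLW q) : S_TUBEQ q := by
  intro d hd hq
  obtain ⟨C, hC, hone⟩ := one_class q h d hd hq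
  have hd0 : (0 : ℝ) < (d : ℝ) := by
    have : 0 < d := by omega
    exact_mod_cast this
  have hq1 : 1 ≤ q := by
    have : 0 ≤ (16752 / 10000) / (d : ℝ) := by positivity
    linarith
  have hex : 0 ≤ q - 1 / (d : ℝ) := by
    have h1 : 1 / (d : ℝ) ≤ 1 := by
      rw [div_le_one hd0]
      have : 1 ≤ d := by omega
      exact_mod_cast this
    linarith
  set K : ℕ := Fintype.card (Fin (d + 1) × Bool) with hK
  refine ⟨(K : ℝ) ^ (q - 1) * K * C + 1, by positivity, ?_⟩
  intro δ hδ hδ1 ι _ a e he hsep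
  -- the largest coordinate
  have hmax : ∀ i : ι, ∃ m : Fin (d + 1), ∀ k, |e i k| ≤ |e i m| := by
    intro i
    exact (Finite.exists_max fun k => |e i k|)
  choose M hM using hmax
  have hne0 : ∀ i, e i (M i) ≠ 0 := by
    intro i h0
    have h1 : e i = 0 := by
      ext k
      have h2 := hM i k
      rw [h0, abs_zero] at h2
      exact abs_eq_zero.1 (le_antisymm h2 (abs_nonneg _))
    have h2 := he i
    rw [h1, norm_zero] at h2
    exact zero_ne_one h2
  set cls : ι → Fin (d + 1) × Bool := fun i => (M i, decide (0 < e i (M i))) with hcls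
  have hclass : ∀ c : Fin (d + 1) × Bool,
      ∫⁻ x, (∑ i : {i // cls i = c}, (tube δ (a i) (e i)).indicator
        (fun _ => (1 : ℝ≥0∞)) x) ^ q ≤
        ENNReal.ofReal (C * δ ^ (d : ℝ) * (Fintype.card ι : ℝ) ^ (q - 1 / (d : ℝ))) := by
    intro c
    obtain ⟨m, sg⟩ := c
    have hmem : ∀ i : {i // cls i = (m, sg)}, M i = m ∧ decide (0 < e i (M i)) = sg := by
      intro i
      have := i.2
      simp only [hcls, Prod.mk.injEq] at this
      exact this
    have h1 := hone δ hδ hδ1 {i // cls i = (m, sg)} (fun i => a i) (fun i => e i) m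
      (fun i => he i)
      (by
        intro i k
        have := hM i k
        rwa [(hmem i).1] at this)
      (by
        intro i j
        have h1 := (hmem i).2
        have h2 := (hmem j).2
        have h4 := hne0 i
        have h5 := hne0 j
        rw [(hmem i).1] at h1 h4
        rw [(hmem j).1] at h2 h5
        have h3 : (0 < e i m) ↔ (0 < e j m) := by
          rw [← decide_eq_decide, h1, h2]
        rcases lt_or_gt_of_ne h4 with h6 | h6
        · have h7 : e j m < 0 := by
            rcases lt_or_gt_of_ne h5 with h7 | h7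
            · exact h7
            · exact absurd (h3.mpr h7) (not_lt.mpr h6.le)
          exact mul_pos_of_neg_of_neg h6 h7
        · exact mul_pos h6 (h3.mp h6))
      (fun i j hij => hsep i j fun h => hij (Subtype.ext h))
    refine h1.trans (ENNReal.ofReal_le_ofReal ?_)
    refine mul_le_mul_of_nonneg_left ?_ (mul_nonneg hC (Real.rpow_nonneg hδ.le _))
    refine Real.rpow_le_rpow (Nat.cast_nonneg _) ?_ hex
    exact_mod_cast Fintype.card_subtype_le _
  have hmeas : ∀ c : Fin (d + 1) × Bool, Measurable fun x =>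
      (∑ i : {i // cls i = c}, (tube δ (a i) (e i)).indicator (fun _ => (1 : ℝ≥0∞)) x) ^ q := by
    intro c
    refine Measurable.pow_const (Finset.measurable_sum _ fun i _ => ?_) q
    exact measurable_const.indicator (tube_isClosed _ _ _).measurableSet
  calc ∫⁻ x, (∑ i, (tube δ (a i) (e i)).indicator (fun _ => (1 : ℝ≥0∞)) x) ^ q
      ≤ ∫⁻ x, (K : ℝ≥0∞) ^ (q - 1) * ∑ c : Fin (d + 1) × Bool,
        (∑ i : {i // cls i = c}, (tube δ (a i) (e i)).indicator
          (fun _ => (1 : ℝ≥0∞)) x) ^ q := by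
        refine lintegral_mono fun x => ?_
        rw [← Fintype.sum_fiberwise cls
          (fun i => (tube δ (a i) (e i)).indicator (fun _ => (1 : ℝ≥0∞)) x)]
        have h1 := ENNReal.rpow_sum_le_const_mul_sum_rpow (Finset.univ : Finset (Fin (d + 1) × Bool))
          (fun c => ∑ i : {i // cls i = c}, (tube δ (a i) (e i)).indicator
            (fun _ => (1 : ℝ≥0∞)) x) hq1
        exact h1
    _ = (K : ℝ≥0∞) ^ (q - 1) * ∑ c : Fin (d + 1) × Bool, ∫⁻ x,
        (∑ i : {i // cls i = c}, (tube δ (a i) (e i)).indicator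
          (fun _ => (1 : ℝ≥0∞)) x) ^ q := by
        rw [lintegral_const_mul' _ _ (ENNReal.rpow_ne_top_of_nonneg (by linarith)
          (ENNReal.natCast_ne_top K)), lintegral_finsetSum _ fun c _ => hmeas c]
    _ ≤ (K : ℝ≥0∞) ^ (q - 1) * ∑ _c : Fin (d + 1) × Bool,
        ENNReal.ofReal (C * δ ^ (d : ℝ) * (Fintype.card ι : ℝ) ^ (q - 1 / (d : ℝ))) :=
        mul_le_mul_right (Finset.sum_le_sum fun c _ => hclass c) _
    _ = ENNReal.ofReal ((K : ℝ) ^ (q - 1) * (K * (C * δ ^ (d : ℝ) *
          (Fintype.card ι : ℝ) ^ (q - 1 / (d : ℝ))))) := by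
        rw [Finset.sum_const, Finset.card_univ, ← hK, nsmul_eq_mul]
        generalize C * δ ^ (d : ℝ) * (Fintype.card ι : ℝ) ^ (q - 1 / (d : ℝ)) = X
        rw [ENNReal.ofReal_mul (Real.rpow_nonneg (Nat.cast_nonneg K) _),
          ENNReal.ofReal_mul (Nat.cast_nonneg K), ENNReal.ofReal_natCast,
          ← ENNReal.ofReal_rpow_of_nonneg (Nat.cast_nonneg K) (by linarith),
          ENNReal.ofReal_natCast]
    _ ≤ ENNReal.ofReal (((K : ℝ) ^ (q - 1) * K * C + 1) * δ ^ (d : ℝ) *
          (Fintype.card ι : ℝ) ^ (q - 1 / (d : ℝ))) := by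
        apply ENNReal.ofReal_le_ofReal
        have h1 : 0 ≤ δ ^ (d : ℝ) * (Fintype.card ι : ℝ) ^ (q - 1 / (d : ℝ)) := by positivity
        nlinarith

end Pool.Agent.W605.HM
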